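import Pool.Agent.Q240.CG.Zeta
import Pool.Agent.Q240.CG.All

set_option autoImplicit false

/-!
# MP_5a4862_nt: the zero-free half-planes of zeta and the exponents of the eigenvalues of Weil's form

For `a > 0` let `W a` be Weil's quadratic form on the functions on `[-a, a]`, written through the pole, the archimedean
place and the prime powers up to `exp (2 a)`; no zero of zeta enters.  On the trigonometric polynomials of degree at
most `n` it is a Hermitian matrix of size `2 n + 1`; let `λ_1 ≤ λ_2 ≤ ...` be its eigenvalues.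

Let `n = m a` with `m a / a → ∞`, `log (m a) = exp (o(a))`.  We prove that every eigenvalue has an exponent,
`- λ_k = exp ((2 β_k - 1 + o(1)) a)`, and that the exponents are given by the real parts of the zeros: `β_k` is the `k`-th
largest real part (in the sense of suprema) of a zero, and `1/2` if there is none.

So the half-plane `Re s > σ` contains fewer than `k` zeros if `-λ_k` grows at most like `exp ((2 σ - 1) a)`; there is a
zero-free half-plane `Re s ≥ σ₀`, `σ₀ < 1`, if and only if for some `k` and `δ > 0` the `k`-th eigenvalue is at least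
`- exp ((1 - δ) a)` for arbitrarily large `a`; and the number of negative eigenvalues tends to the number of distinct
zeros with `Re s > 1/2`.
-/

namespace Pool.Agent.Results.MP_5a4862_nt.EigenvalueExponents

open Complex MeasureTheory Filter Topology

/-- The trigonometric polynomials of degree at most `n` on `[-a, a]`, extended by `0`. -/
def Trig (a : ℝ) (n : ℕ) (f : ℝ → ℂ) : Prop := ∃ c : ℤ → ℂ, ∀ x : ℝ,
  f x = if |x| ≤ a then ∑ k ∈ Finset.Icc (-(n : ℤ)) n, c k * cexp ((Real.pi * k * x / a : ℝ) * I) else 0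

/-- The Mellin transform of `f` in the logarithmic variable, centred at `1/2`. -/
noncomputable def M (f : ℝ → ℂ) (s : ℂ) : ℂ := ∫ x : ℝ, f x * cexp ((s - 1 / 2) * x)

/-- The square of the norm of `f` in `L²`. -/
noncomputable def N (f : ℝ → ℂ) : ℝ := ∫ x : ℝ, ‖f x‖ ^ 2

/-- Weil's quadratic form for functions supported in `[-a, a]`: the pole, the archimedean place
and the prime powers `m ≤ exp (2 a)`. -/
noncomputable def W (a : ℝ) (f : ℝ → ℂ) : ℝ :=
  2 * (M f 1 * (starRingEnd ℂ) (M f 0)).re +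
    1 / (2 * Real.pi) * (∫ t : ℝ, ((digamma (1 / 4 + t / 2 * I)).re - Real.log Real.pi) *
      ‖M f (1 / 2 + t * I)‖ ^ 2) -
    2 * ∑ m ∈ Finset.Icc 1 ⌊Real.exp (2 * a)⌋₊, ArithmeticFunction.vonMangoldt m / Real.sqrt m *
      (∫ x : ℝ, f (x + Real.log m) * (starRingEnd ℂ) (f x)).re

/-- The `k`-th eigenvalue of `W a` on the trigonometric polynomials of degree at most `n` (Courant-Fischer): the least `x`
such that `W a ≤ x N` on some subspace of dimension `k`. -/
noncomputable def lam (a : ℝ) (n k : ℕ) : ℝ := sInf {x : ℝ | ∃ V : Submodule ℂ (ℝ → ℂ), (∀ f ∈ V, Trig a n f) ∧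
  Module.finrank ℂ V = k ∧ ∀ f ∈ V, W a f ≤ x * N f}

/-- The (distinct) zeros of zeta with real part greater than `x`, `x ≥ 1/2`. -/
def Right (x : ℝ) : Set ℂ := {s : ℂ | riemannZeta s = 0 ∧ x < s.re}

/-- The `k`-th largest real part of a zero, in the sense of suprema, and `1/2` if there are fewer than `k` zeros to the
right of the line. -/
noncomputable def beta (k : ℕ) : ℝ := sInf {x : ℝ | 1 / 2 ≤ x ∧ (Right x).encard < k}

/-- The degrees `m a` grow faster than `a`, and `log (m a) = exp (o(a))`. -/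
def Deg (m : ℝ → ℕ) : Prop := Tendsto (fun a : ℝ => (m a : ℝ) / a) atTop atTop ∧
  ∀ ε : ℝ, 0 < ε → ∀ᶠ a : ℝ in atTop, Real.log (m a) ≤ Real.exp (ε * a)

open Pool.Agent.Q240.CD Pool.Agent.Q240.CG

lemma M_eq (f : ℝ → ℂ) (s : ℂ) : M f s = Y23.TT f (s - 1 / 2) := rfl

lemma M_line (f : ℝ → ℂ) (t : ℝ) : M f (1 / 2 + t * I) = Y23.TT f (t * I) := by
  rw [M_eq]; congr 1; ring

lemma W_eq {a : ℝ} {n : ℕ} (ha : 0 < a) {f : ℝ → ℂ} (hf : Trig a n f) : W a f = Y23.QQ f := by
  rw [Y23.weil ha (Tg_Hn ha hf).hd]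
  have e1 : M f 1 = Y23.TT f (1 / 2) := by rw [M_eq]; congr 1; ring
  have e2 : M f 0 = Y23.TT f (-(1 / 2)) := by rw [M_eq]; congr 1; ring
  unfold W Y23.DG
  simp only [e1, e2, M_line]

lemma lam_eq {a : ℝ} (ha : 0 < a) (n k : ℕ) : lam a n k = sInf (Pool.Agent.Q240.CE.evs Y23.QQ Y23.N2 (Tg a n) k) := by
  unfold lam Pool.Agent.Q240.CE.evs
  congr 1
  ext x
  constructor
  · rintro ⟨V, h1, h2, h3⟩
    refine ⟨V, h1, h2, fun f hf => ?_⟩
    rw [← W_eq ha (h1 f hf)]
    exact h3 f hf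
  · rintro ⟨V, h1, h2, h3⟩
    refine ⟨V, h1, h2, fun f hf => ?_⟩
    rw [W_eq ha (h1 f hf)]
    exact h3 f hf

lemma right_eq {x : ℝ} (hx : 1 / 2 ≤ x) : Right x = {s : ℂ | Y23.IsZ s ∧ x < s.re} := by
  ext s
  constructor
  · rintro ⟨h1, h2⟩
    refine ⟨⟨h1, by linarith, ?_⟩, h2⟩
    by_contra hcon
    push Not at hcon
    exact riemannZeta_ne_zero_of_one_le_re hcon h1
  · rintro ⟨h1, h2⟩
    exact ⟨h1.1, h2⟩

lemma beta_eq (k : ℕ) : beta k = betaZ k := by
  unfold beta betaZ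
  congr 1
  ext x
  constructor
  · rintro ⟨h1, h2⟩
    exact ⟨h1, by rwa [right_eq h1] at h2⟩
  · rintro ⟨h1, h2⟩
    exact ⟨h1, by rwa [right_eq h1]⟩

lemma beta_set_one {k : ℕ} (hk : 1 ≤ k) : (1 : ℝ) ∈ {x : ℝ | 1 / 2 ≤ x ∧ (Right x).encard < k} := by
  refine ⟨by norm_num, ?_⟩
  have h : Right 1 = ∅ := by
    rw [Set.eq_empty_iff_forall_notMem]
    rintro s ⟨h1, h2⟩
    exact riemannZeta_ne_zero_of_one_le_re h2.le h1
  rw [h, Set.encard_empty]
  exact_mod_cast hk

lemma beta_bdd (k : ℕ) : BddBelow {x : ℝ | 1 / 2 ≤ x ∧ (Right x).encard < k} := ⟨1 / 2, fun _ h => h.1⟩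

lemma beta_le_one {k : ℕ} (hk : 1 ≤ k) : beta k ≤ 1 := csInf_le (beta_bdd k) (beta_set_one hk)

lemma half_le_beta {k : ℕ} (hk : 1 ≤ k) : 1 / 2 ≤ beta k := le_csInf ⟨_, beta_set_one hk⟩ fun _ h => h.1

/-- if there is no zero-free half-plane, all exponents are `1` -/
lemma beta_of_no {k : ℕ} (hk : 1 ≤ k) (h : ¬ ∃ σ : ℝ, σ < 1 ∧ ∀ s : ℂ, σ ≤ s.re → riemannZeta s ≠ 0) : beta k = 1 := by
  refine le_antisymm (beta_le_one hk) (le_csInf ⟨_, beta_set_one hk⟩ ?_)
  rintro x ⟨hx1, hx2⟩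
  by_contra hcon
  push Not at hcon
  -- finitely many zeros to the right of x
  have hfin : (Right x).Finite := Set.finite_of_encard_le_coe (k := k) hx2.le
  apply h
  -- the maximum of the real parts
  by_cases hne : (Right x).Nonempty
  · obtain ⟨s0, hs0, hmax⟩ := hfin.exists_maximalFor Complex.re _ hne
    have h1 : s0.re < 1 := by
      by_contra hc
      push Not at hc
      exact riemannZeta_ne_zero_of_one_le_re hc hs0.1
    refine ⟨(s0.re + 1) / 2, by linarith, fun s hs hz => ?_⟩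
    have h2 : s ∈ Right x := ⟨hz, by have := hs0.2; linarith⟩
    have h3 := hmax h2 (by linarith)
    linarith
  · refine ⟨(x + 1) / 2, by linarith, fun s hs hz => hne ⟨s, hz, by linarith⟩⟩

lemma beta_of_yes {k : ℕ} (hk : 1 ≤ k) {σ : ℝ} (hσ : σ < 1) (h : ∀ s : ℂ, σ ≤ s.re → riemannZeta s ≠ 0) : beta k < 1 := by
  have h1 : max σ (1 / 2) ∈ {x : ℝ | 1 / 2 ≤ x ∧ (Right x).encard < k} := by
    refine ⟨le_max_right _ _, ?_⟩
    have h2 : Right (max σ (1 / 2)) = ∅ := by
      rw [Set.eq_empty_iff_forall_notMem]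
      rintro s ⟨h3, h4⟩
      exact h s ((le_max_left _ _).trans h4.le) h3
    rw [h2, Set.encard_empty]
    exact_mod_cast hk
  exact (csInf_le (beta_bdd k) h1).trans_lt (max_lt hσ (by norm_num))

/-- fewer than `k` zeros to the right of `σ` -/
lemma beta_le_iff {k : ℕ} (hk : 1 ≤ k) {σ : ℝ} (hσ : 1 / 2 ≤ σ) : (Right σ).encard < k ↔ beta k ≤ σ := by
  constructor
  · intro h
    exact csInf_le (beta_bdd k) ⟨hσ, h⟩
  · intro h
    by_contra hcon
    push Not at hcon
    obtain ⟨S, hS1, hS2⟩ := Set.exists_subset_encard_eq hcon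
    have hfin : S.Finite := Set.finite_of_encard_eq_coe hS2
    have hne : S.Nonempty := by
      rw [← Set.encard_pos, hS2]
      exact_mod_cast hk
    obtain ⟨s0, hs0, hmin⟩ := hfin.exists_minimalFor Complex.re _ hne
    have h1 : σ < s0.re := (hS1 hs0).2
    -- all of S lies to the right of the middle
    have h2 : (k : ℕ∞) ≤ (Right ((σ + s0.re) / 2)).encard := by
      rw [← hS2]
      refine Set.encard_le_encard fun s hs => ⟨(hS1 hs).1, ?_⟩
      have h3 : s0.re ≤ s.re := by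
        rcases le_total s0.re s.re with h | h
        · exact h
        · exact hmin hs h
      linarith
    have h3 : (σ + s0.re) / 2 ≤ beta k := by
      refine le_csInf ⟨_, beta_set_one hk⟩ ?_
      rintro x ⟨hx1, hx2⟩
      by_contra hc
      push Not at hc
      have h4 : Right ((σ + s0.re) / 2) ⊆ Right x := fun s hs => ⟨hs.1, hc.trans hs.2⟩
      exact absurd (h2.trans (Set.encard_le_encard h4)) (not_le.2 hx2)
    linarith

theorem main (J : JB) (m : ℝ → ℕ) (hD : Deg m) (k : ℕ) (hk : 1 ≤ k) :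
    Tendsto (fun a : ℝ => Real.log (max 1 (-lam a (m a) k)) / a) atTop (𝓝 (2 * beta k - 1)) ∧
    (∀ σ : ℝ, 1 / 2 ≤ σ → ((Right σ).encard < k ↔ ∀ ε : ℝ, 0 < ε → ∀ᶠ a : ℝ in atTop,
      -Real.exp ((2 * σ - 1 + ε) * a) ≤ lam a (m a) k)) ∧
    (((k : ℕ∞) ≤ (Right (1 / 2)).encard ∧ ∀ᶠ a : ℝ in atTop, lam a (m a) k < 0) ∨
      ((Right (1 / 2)).encard < k ∧ ∀ᶠ a : ℝ in atTop, 0 ≤ lam a (m a) k)) ∧
    ((∃ σ : ℝ, σ < 1 ∧ ∀ s : ℂ, σ ≤ s.re → riemannZeta s ≠ 0) ↔
      ∃ δ : ℝ, 0 < δ ∧ ∀ A : ℝ, ∃ a, A ≤ a ∧ -Real.exp ((1 - δ) * a) ≤ lam a (m a) k) := by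
  obtain ⟨hm, hm2⟩ := hD
  have h1 := zetaB J m hm hm2 hk
  have h2 := zetaN J m hm hk
  have hT : Tendsto (fun a : ℝ => Real.log (max 1 (-lam a (m a) k)) / a) atTop (𝓝 (2 * beta k - 1)) := by
    rw [beta_eq]
    refine h1.congr' ?_
    filter_upwards [eventually_gt_atTop 0] with a ha
    rw [lam_eq ha]
  -- from the exponent to the eigenvalue
  have hup : ∀ c : ℝ, 2 * beta k - 1 < c → ∀ᶠ a : ℝ in atTop, -Real.exp (c * a) ≤ lam a (m a) k := by
    intro c hc
    filter_upwards [hT.eventually_lt_const hc, eventually_gt_atTop 0] with a h4 h5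
    rw [div_lt_iff₀ h5] at h4
    have h7 : 0 < max 1 (-lam a (m a) k) := lt_of_lt_of_le one_pos (le_max_left _ _)
    have h8 := (Real.log_lt_iff_lt_exp h7).1 h4
    have h9 := le_max_right (1 : ℝ) (-lam a (m a) k)
    linarith
  have hlow : ∀ c : ℝ, 0 ≤ c → c < 2 * beta k - 1 → ∀ᶠ a : ℝ in atTop, lam a (m a) k < -Real.exp (c * a) := by
    intro c hc0 hc
    filter_upwards [hT.eventually_const_lt hc, eventually_gt_atTop 0] with a h4 h5
    rw [lt_div_iff₀ h5] at h4
    have h7 : 0 < max 1 (-lam a (m a) k) := lt_of_lt_of_le one_pos (le_max_left _ _)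
    have h8 := (Real.lt_log_iff_exp_lt h7).1 h4
    rcases lt_max_iff.1 h8 with h9 | h9
    · have : (1 : ℝ) ≤ Real.exp (c * a) := Real.one_le_exp (by positivity)
      linarith
    · linarith
  refine ⟨hT, fun σ hσ => ⟨fun h ε hε => ?_, fun h => ?_⟩, ?_, ?_, ?_⟩
  · have h3 := (beta_le_iff hk hσ).1 h
    exact hup _ (by linarith)
  · rw [beta_le_iff hk hσ]
    by_contra hcon
    push Not at hcon
    set ε : ℝ := beta k - σ with hε
    have hε0 : 0 < ε := by rw [hε]; linarith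
    obtain ⟨a, h3, h4⟩ := ((h ε hε0).and (hlow (2 * σ - 1 + ε) (by linarith) (by linarith))).exists
    linarith
  · rw [← right_eq le_rfl] at h2
    rcases le_or_gt (k : ℕ∞) (Right (1 / 2)).encard with h | h
    · left
      refine ⟨h, ?_⟩
      filter_upwards [h2.1 h, eventually_gt_atTop 0] with a h3 ha
      rwa [lam_eq ha]
    · right
      refine ⟨h, ?_⟩
      filter_upwards [h2.2 h, eventually_gt_atTop 0] with a h3 ha
      rwa [lam_eq ha]
  · rintro ⟨σ, hσ, hz⟩
    have hb := beta_of_yes hk hσ hz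
    refine ⟨1 - beta k, by linarith, fun A => ?_⟩
    obtain ⟨a, h4, h5⟩ := ((hup (1 - (1 - beta k)) (by linarith)).and (eventually_ge_atTop A)).exists
    exact ⟨a, h5, h4⟩
  · rintro ⟨δ, hδ, h⟩
    by_contra hcon
    have hb := beta_of_no hk hcon
    have h3 := hlow (1 - min δ 1) (by have := min_le_right δ 1; linarith) (by
      rw [hb]
      have : 0 < min δ 1 := lt_min hδ one_pos
      linarith)
    obtain ⟨A, hA⟩ := eventually_atTop.1 (h3.and ((eventually_gt_atTop 0)))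
    obtain ⟨a, ha, h4⟩ := h A
    obtain ⟨h5, h6⟩ := hA a ha
    have h7 : Real.exp ((1 - δ) * a) ≤ Real.exp ((1 - min δ 1) * a) := by
      refine Real.exp_le_exp.2 (mul_le_mul_of_nonneg_right ?_ h6.le)
      have := min_le_left δ 1
      linarith
    linarith

/-- **The theorem.** For all degrees `m a` with `m a / a → ∞`, `log (m a) = exp (o(a))`, and every `k ≥ 1`: the `k`-th
eigenvalue of `W a` in degree at most `m a` has the exponent `2 β_k - 1`; there are fewer than `k` zeros to the right of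
`σ ≥ 1/2` if and only if the `k`-th eigenvalue is eventually at least `- exp ((2 σ - 1 + ε) a)` for all `ε > 0`; the `k`-th
eigenvalue is negative for all large `a` if there are at least `k` zeros to the right of the line, and nonnegative for all
large `a` if not; and zeta has a zero-free half-plane `Re s ≥ σ`, `σ < 1`, if and only if for some `δ > 0` the `k`-th
eigenvalue is at least `- exp ((1 - δ) a)` for arbitrarily large `a`. -/
theorem result (m : ℝ → ℕ) (hm : Deg m) (k : ℕ) (hk : 1 ≤ k) :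
    Tendsto (fun a : ℝ => Real.log (max 1 (-lam a (m a) k)) / a) atTop (𝓝 (2 * beta k - 1)) ∧
    (∀ σ : ℝ, 1 / 2 ≤ σ → ((Right σ).encard < k ↔ ∀ ε : ℝ, 0 < ε → ∀ᶠ a : ℝ in atTop,
      -Real.exp ((2 * σ - 1 + ε) * a) ≤ lam a (m a) k)) ∧
    (((k : ℕ∞) ≤ (Right (1 / 2)).encard ∧ ∀ᶠ a : ℝ in atTop, lam a (m a) k < 0) ∨
      ((Right (1 / 2)).encard < k ∧ ∀ᶠ a : ℝ in atTop, 0 ≤ lam a (m a) k)) ∧
    ((∃ σ : ℝ, σ < 1 ∧ ∀ s : ℂ, σ ≤ s.re → riemannZeta s ≠ 0) ↔
      ∃ δ : ℝ, 0 < δ ∧ ∀ A : ℝ, ∃ a, A ≤ a ∧ -Real.exp ((1 - δ) * a) ≤ lam a (m a) k) :=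
  main jb m hm k hk

end Pool.Agent.Results.MP_5a4862_nt.EigenvalueExponents
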